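import Pool.Agent.Lib.MP_49c3df_gt.InstMD
import Pool.Agent.Lib.MP_49c3df_gt.GeoB3
import Pool.Agent.Lib.MP_49c3df_gt.RedC
import Pool.Agent.Lib.MP_49c3df_gt.RedD

/-!
# Entropy of closed rotationally symmetric self-shrinkers

Every closed rotationally symmetric self-shrinking torus in `ℝ³` has entropy at least `1.573`,
which is larger than `π / 2`.  The definitions (parametrised surfaces, mean curvature vector,
self-shrinkers, Gaussian area, entropy, closed profile curves and surfaces of revolution) are in
`Pool.Agent.Lib.MP_49c3df_gt.Stmt`.

Sketch of the proof.  The profile curve `(r, z)` is a closed geodesic of the metric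
`r² exp(-(r²+z²)/2) (dr² + dz²)`, and the Gaussian area at the origin and scale `1` is half of its
length.  A closed geodesic crosses `z = 0`, so it contains an arc above and an arc below `z = 0`,
disjoint from each other.  Every such arc has length at least `1.573`: from its highest point two
branches go down to `z = 0`, along each branch a certain piecewise polynomial function `h` of the
state (position and direction) satisfies `d h + d (length) ≥ 0` and `h ≤ 0` at the end, and the two
values of `h` at the highest point have sum at least `1.573`.  The two certificates (682 cells) are
checked by the kernel in integer arithmetic; far away from the origin barrier arguments are used.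
-/

namespace Pool.Agent.Results.MP_49c3df_gt.RotationalEntropyBound

open SShr

theorem result (γ : Profile) (h : IsSelfShrinker γ.surface) :
    Real.pi / 2 < 1.573 ∧ ENNReal.ofReal 1.573 ≤ entropy γ.surface γ.L := by
  constructor
  · have := Real.pi_lt_d4
    linarith
  · apply γ.entropy_ge
    rw [γ.gauss]
    have hb := closed_bound factsM factsD (γ.geo h) γ.L_pos γ.r_per γ.z_per γ.v_per
    norm_num at hb ⊢
    linarith

end Pool.Agent.Results.MP_49c3df_gt.RotationalEntropyBound
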